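import Pool.Agent.W307.QF.Stm

/-!
# QF-AVA: the moments in short intervals
-/

set_option autoImplicit false

namespace Pool.Agent.W409.QF

open Finset Polynomial Pool.Agent.W262.RK Pool.Agent.W307.RT Pool.Agent.W307.RS
open Pool.Agent.W307.QF

/-- values at congruent points -/
lemma dvd_eval_iff (P : ℤ[X]) (p : ℤ) (a b : ℤ) (h : p ∣ a - b) :
    p ∣ P.eval a ↔ p ∣ P.eval b := by
  have h1 : p ∣ P.eval a - P.eval b := h.trans (Polynomial.sub_dvd_eval_sub a b P)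
  exact (dvd_iff_dvd_of_dvd_sub h1)

lemma eval_shift (P : ℤ[X]) (N x : ℤ) : (P.comp (X + C N)).eval x = P.eval (x + N) := by
  rw [eval_comp, eval_add, eval_X, eval_C]

/-- the number of the zeros does not change under a shift -/
lemma nz_shift (P : ℤ[X]) (N : ℤ) (p : ℕ) (hp : 0 < p) : nz (P.comp (X + C N)) p = nz P p := by
  unfold nz
  have hp' : (0 : ℤ) < (p : ℤ) := by exact_mod_cast hp
  have key : ∀ (M : ℤ) (x : ℕ), x < p →
      (((x : ℤ) + M) % (p : ℤ)).toNat < p ∧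
      ((((x : ℤ) + M) % (p : ℤ)).toNat : ℤ) = ((x : ℤ) + M) % (p : ℤ) := by
    intro M x _
    have h1 := Int.emod_nonneg ((x : ℤ) + M) hp'.ne'
    have h2 := Int.emod_lt_of_pos ((x : ℤ) + M) hp'
    constructor
    · omega
    · exact Int.toNat_of_nonneg h1
  have inv : ∀ (M : ℤ) (x : ℕ), x < p →
      ((((((x : ℤ) + M) % (p : ℤ)).toNat : ℤ) + (-M)) % (p : ℤ)).toNat = x := by
    intro M x hx
    rw [(key M x hx).2, Int.emod_add_emod]
    have : (x : ℤ) + M + -M = (x : ℤ) := by ring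
    rw [this, Int.emod_eq_of_lt (by omega) (by exact_mod_cast hx)]
    simp
  refine Finset.card_nbij' (fun x => (((x : ℤ) + N) % (p : ℤ)).toNat)
    (fun x => (((x : ℤ) + (-N)) % (p : ℤ)).toNat) ?_ ?_ ?_ ?_
  · intro x hx
    simp only [coe_filter, mem_range, Set.mem_ofPred_eq] at hx ⊢
    refine ⟨(key N x hx.1).1, ?_⟩
    rw [(key N x hx.1).2]
    rw [eval_shift] at hx
    refine (dvd_eval_iff P p _ _ ?_).1 hx.2
    exact Int.dvd_self_sub_emod
  · intro x hx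
    simp only [coe_filter, mem_range, Set.mem_ofPred_eq] at hx ⊢
    refine ⟨(key (-N) x hx.1).1, ?_⟩
    rw [eval_shift, (key (-N) x hx.1).2]
    refine (dvd_eval_iff P p _ _ ?_).1 hx.2
    have h1 : (p : ℤ) ∣ ((x : ℤ) + -N) - ((x : ℤ) + -N) % (p : ℤ) := Int.dvd_self_sub_emod
    have h2 : (x : ℤ) - (((x : ℤ) + -N) % (p : ℤ) + N) =
      ((x : ℤ) + -N) - ((x : ℤ) + -N) % (p : ℤ) := by ring
    rw [h2]; exact h1
  · intro x hx
    simp only [coe_filter, mem_range, Set.mem_ofPred_eq] at hx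
    exact inv N x hx.1
  · intro x hx
    simp only [coe_filter, mem_range, Set.mem_ofPred_eq] at hx
    have := inv (-N) x hx.1
    rw [neg_neg] at this
    exact this

/-- the size of the values of a polynomial -/
lemma natAbs_eval_le (P : ℤ[X]) (x : ℤ) (Y d : ℕ) (hx : x.natAbs ≤ Y) (hY : 1 ≤ Y)
    (hd : P.natDegree ≤ d) :
    (P.eval x).natAbs ≤ (∑ i ∈ range (P.natDegree + 1), (P.coeff i).natAbs) * Y ^ d := by
  rw [Polynomial.eval_eq_sum_range, Finset.sum_mul]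
  refine (Int.natAbs_sum_le _ _).trans (Finset.sum_le_sum fun i hi => ?_)
  rw [Int.natAbs_mul, Int.natAbs_pow]
  refine Nat.mul_le_mul_left _ ?_
  rw [mem_range] at hi
  calc x.natAbs ^ i ≤ Y ^ i := Nat.pow_le_pow_left hx i
    _ ≤ Y ^ d := Nat.pow_le_pow_right hY (by omega)

lemma re_le (e : ℤ) (p : ℕ) : re e p ≤ 2 := by
  unfold re
  have : jacobiSym e p ≤ 1 := by
    rcases jacobiSym.trichotomy e p with h | h | h <;> omega
  omega

/-- `(y + 1) ^ ω(n) ≤ n` if all prime factors of `n` are greater than `y` -/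
lemma pow_card_le (n y : ℕ) (hn : n ≠ 0) (h : ∀ p ∈ n.primeFactors, y < p) :
    (y + 1) ^ n.primeFactors.card ≤ n := by
  calc (y + 1) ^ n.primeFactors.card = ∏ _p ∈ n.primeFactors, (y + 1) := by
        rw [prod_const]
    _ ≤ ∏ p ∈ n.primeFactors, p := Finset.prod_le_prod' fun p hp => h p hp
    _ ≤ n := Nat.le_of_dvd (Nat.pos_of_ne_zero hn) (Nat.prod_primeFactors_dvd n)

lemma PP_ne (z y : ℕ) : PP z y ≠ 0 := by
  unfold PP
  refine Finset.prod_ne_zero_iff.2 fun p hp => ?_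
  unfold PS at hp
  exact (mem_filter.1 hp).2.ne_zero

lemma prime_dvd_PP {z y p : ℕ} (hp : p.Prime) (h : p ∣ PP z y) : z < p ∧ p ≤ y := by
  unfold PP at h
  obtain ⟨q, hq, hpq⟩ := (Prime.dvd_finsetProd_iff hp.prime _).1 h
  unfold PS at hq
  rw [mem_filter, mem_Ioc] at hq
  have := (Nat.prime_dvd_prime_iff_eq hp hq.2).1 hpq
  omega

variable {J : Type} [Fintype J] [DecidableEq J]

lemma tup_dvd {z y : ℕ} {s : J → ℕ} (hs : s ∈ Tup J z y) (j : J) : s j ∣ PP z y := by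
  classical
  unfold Tup at hs
  rw [mem_filter, Fintype.mem_piFinset] at hs
  exact Nat.dvd_of_mem_divisors (hs.1 j)

lemma tup_ne {z y : ℕ} {s : J → ℕ} (hs : s ∈ Tup J z y) (j : J) : s j ≠ 0 :=
  ne_zero_of_dvd_ne_zero (PP_ne z y) (tup_dvd hs j)

lemma tup_prime {z y : ℕ} {s : J → ℕ} (hs : s ∈ Tup J z y) (j : J) :
    ∀ p ∈ (s j).primeFactors, z < p := by
  intro p hp
  exact (prime_dvd_PP (Nat.prime_of_mem_primeFactors hp)
    ((Nat.dvd_of_mem_primeFactors hp).trans (tup_dvd hs j))).1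

/-- the weights for two constants -/
lemma gw_le (c n z v : ℕ) (hn : n ≤ c) (hz : 2 * c + 2 ≤ z) (hv : ∀ p ∈ v.primeFactors, z < p) :
    (c : ℝ) ^ v.primeFactors.card * gw 1 c v ≤ (2 * c + 1 : ℝ) ^ v.primeFactors.card * gw 1 n v := by
  unfold gw
  rw [← prod_const, ← prod_const, ← prod_mul_distrib, ← prod_mul_distrib]
  refine Finset.prod_le_prod (fun p hp => ?_) (fun p hp => ?_)
  · have h1 : (2 * c + 2 : ℝ) < p := by
      have h2 := hv p hp
      have : 2 * c + 2 < p := by omega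
      exact_mod_cast this
    have h3 : (0 : ℝ) ≤ c := Nat.cast_nonneg _
    have h4 : (0 : ℝ) < (p : ℝ) - c := by linarith
    positivity
  · have h1 : (2 * c + 2 : ℝ) < p := by
      have h2 := hv p hp
      have : 2 * c + 2 < p := by omega
      exact_mod_cast this
    have h3 : (0 : ℝ) ≤ c := Nat.cast_nonneg _
    have h5 : (0 : ℝ) ≤ n := Nat.cast_nonneg _
    have h6 : (n : ℝ) ≤ c := by exact_mod_cast hn
    have h4 : (0 : ℝ) < (p : ℝ) - c := by linarith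
    have h7 : (0 : ℝ) < (p : ℝ) - n := by linarith
    rw [mul_one_div, mul_one_div, div_le_div_iff₀ h4 h7]
    nlinarith

lemma gw_nonneg' (c z v : ℕ) (hz : 2 * c + 2 ≤ z) (hv : ∀ p ∈ v.primeFactors, z < p) :
    0 ≤ gw 1 c v := by
  unfold gw
  refine Finset.prod_nonneg fun p hp => ?_
  have h1 : (2 * c + 2 : ℝ) < p := by
    have h2 := hv p hp
    have : 2 * c + 2 < p := by omega
    exact_mod_cast this
  have h3 : (0 : ℝ) ≤ c := Nat.cast_nonneg _
  have h4 : (0 : ℝ) < (p : ℝ) - c := by linarith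
  positivity

lemma rr_nonneg (r : ℕ → ℕ) (d : ℕ) : 0 ≤ rr r d := by
  unfold rr
  exact Finset.prod_nonneg fun p _ => Nat.cast_nonneg _

/-- the factors of the large primes -/
lemma u_factor (c y Y L k : ℕ) (u v s : J → ℕ) (hu : u ∈ Tup J y Y) (z y' : ℕ)
    (hs : s ∈ Tup J z y') (hv : v ∈ Tup J z y') (h8 : (∏ j, s j * v j * u j) ^ 8 ≤ L)
    (hk : L < (y + 1) ^ k) :
    (∏ j, (c : ℝ) ^ (u j).primeFactors.card * (1 / (u j : ℝ))) ≤
      ((c : ℝ) + 1) ^ k * ∏ j, 1 / (u j : ℝ) := by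
  rw [prod_mul_distrib]
  have hu0 : ∀ j, 0 < u j := fun j => Nat.pos_of_ne_zero (tup_ne hu j)
  refine mul_le_mul_of_nonneg_right ?_ (prod_nonneg fun j _ => by positivity)
  have h1 : (y + 1) ^ (∑ j, (u j).primeFactors.card) ≤ ∏ j, u j := by
    rw [← prod_pow_eq_pow_sum]
    exact Finset.prod_le_prod' fun j _ => pow_card_le (u j) y (tup_ne hu j) (tup_prime hu j)
  have h2 : ∏ j, u j ≤ ∏ j, s j * v j * u j := by
    refine Finset.prod_le_prod' fun j _ => ?_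
    have h3 : 0 < s j * v j := Nat.mul_pos (Nat.pos_of_ne_zero (tup_ne hs j))
      (Nat.pos_of_ne_zero (tup_ne hv j))
    exact Nat.le_mul_of_pos_left _ h3
  have h3 : ∏ j, s j * v j * u j ≤ (∏ j, s j * v j * u j) ^ 8 := Nat.le_self_pow (by norm_num) _
  have h4 : (y + 1) ^ (∑ j, (u j).primeFactors.card) < (y + 1) ^ k :=
    lt_of_le_of_lt (h1.trans (h2.trans (h3.trans h8))) hk
  have h5 : ∑ j, (u j).primeFactors.card ≤ k := by
    by_contra hc
    rw [not_le] at hc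
    have := Nat.pow_le_pow_right (n := y + 1) (by omega) hc.le
    omega
  have hc0 : (0 : ℝ) ≤ c := Nat.cast_nonneg _
  rw [prod_pow_eq_pow_sum]
  calc (c : ℝ) ^ (∑ j, (u j).primeFactors.card)
      ≤ ((c : ℝ) + 1) ^ (∑ j, (u j).primeFactors.card) :=
        pow_le_pow_left₀ hc0 (by linarith) _
    _ ≤ ((c : ℝ) + 1) ^ k := pow_le_pow_right₀ (by linarith) h5

/-- the factors of the squares -/
lemma v_factor (c n z y : ℕ) (hn : n ≤ c) (hz : 2 * c + 2 ≤ z) (v : J → ℕ)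
    (hv : v ∈ Tup J z y) :
    (∏ j, (c : ℝ) ^ (v j).primeFactors.card * (gw 1 c (v j) / v j)) ≤
      ∏ j, (2 * c + 1 : ℝ) ^ (v j).primeFactors.card * (gw 1 n (v j) / v j) := by
  refine Finset.prod_le_prod (fun j _ => ?_) (fun j _ => ?_)
  · have := gw_nonneg' c z (v j) hz (tup_prime hv j)
    positivity
  · rw [← mul_div_assoc, ← mul_div_assoc]
    exact div_le_div_of_nonneg_right (gw_le c n z (v j) hn hz (tup_prime hv j))
      (Nat.cast_nonneg _)

theorem ava_of (h1 : Pool.Agent.W307.QF.AVGA) (h2 : Pool.Agent.W307.QF.CNTE)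
    (h3 : Pool.Agent.W307.QF.MERL) (h4 : Pool.Agent.W307.QF.COP) : Pool.Agent.W307.QF.AVA := by
  intro J _ _ P e a k0 B hD ha ha2 hk0
  classical
  obtain ⟨p0, hp0⟩ := hD.nz'
  have hcop : ∀ j l, ∃ q : ℕ, j ≠ l → ∀ p : ℕ, p.Prime → q < p → ∀ x : ℤ,
      ¬ ((p : ℤ) ∣ (P j).eval x ∧ (p : ℤ) ∣ (P l).eval x) := by
    intro j l
    by_cases hjl : j ≠ l
    · obtain ⟨q, hq⟩ := h4 (P j) (P l) (hD.cop j l hjl)
      exact ⟨q, fun _ => hq⟩
    · exact ⟨0, fun h => absurd h hjl⟩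
  choose q1 hq1 using hcop
  choose q2 hq2 using fun j => h4 (P j) (derivative (P j)) (hD.sep j)
  set n := Fintype.card J with hn
  obtain ⟨c, hc⟩ : ∃ c, c = 2 * n := ⟨_, rfl⟩
  obtain ⟨z1, hz1⟩ : ∃ z1 : ℕ, z1 = p0 + (2 * c + 2) + ∑ j, ∑ l, q1 j l + ∑ j, q2 j := ⟨_, rfl⟩
  have hq1z : ∀ j l, q1 j l ≤ z1 := by
    intro j l
    have e1 := single_le_sum (f := fun l => q1 j l) (fun _ _ => Nat.zero_le _) (mem_univ l)
    have e2 := single_le_sum (f := fun j => ∑ l, q1 j l) (fun _ _ => Nat.zero_le _) (mem_univ j)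
    omega
  have hq2z : ∀ j, q2 j ≤ z1 := by
    intro j
    have e2 := single_le_sum (f := fun j => q2 j) (fun _ _ => Nat.zero_le _) (mem_univ j)
    omega
  -- sizes
  obtain ⟨d, hd⟩ : ∃ d : ℕ, d = ∑ j, (P j).natDegree := ⟨_, rfl⟩
  obtain ⟨A0, hA0⟩ : ∃ A0 : ℕ, A0 = ∑ j, ∑ i ∈ range ((P j).natDegree + 1),
    ((P j).coeff i).natAbs := ⟨_, rfl⟩
  have hdj : ∀ j, (P j).natDegree ≤ d := by
    intro j
    rw [hd]
    exact single_le_sum (f := fun j => (P j).natDegree) (fun _ _ => Nat.zero_le _) (mem_univ j)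
  have hAj : ∀ j, ∑ i ∈ range ((P j).natDegree + 1), ((P j).coeff i).natAbs ≤ A0 := by
    intro j
    rw [hA0]
    exact single_le_sum (f := fun j => ∑ i ∈ range ((P j).natDegree + 1),
      ((P j).coeff i).natAbs) (fun _ _ => Nat.zero_le _) (mem_univ j)
  -- the summand
  let r : ℤ → ℝ := fun w => ((2 : ℝ) ^ Module.finrank ℤ (EAB (a 0 * ∏ j, (P j).eval w)
        (a 1 * ∏ j, (P j).eval w)).toAffine.Point) ^ k0
  have hr0 : ∀ w, 0 ≤ r w := fun w => by positivity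
  suffices key : ∃ C2 : ℝ, ∀ θ : {θ : ℤ × ℕ // 1 ≤ θ.2 ∧ θ.1.natAbs ≤ θ.2 ^ B},
      ∑ t ∈ (Icc 1 θ.1.2).filter (fun t : ℕ => ∀ j, (P j).eval (θ.1.1 + (t : ℤ)) ≠ 0),
        r (θ.1.1 + (t : ℤ)) ≤ C2 * (θ.1.2 : ℝ) by
    obtain ⟨C2, hC2⟩ := key
    exact ⟨C2, fun N X hX hN => hC2 ⟨(N, X), hX, hN⟩⟩
  refine h1 J ℕ {θ : ℤ × ℕ // 1 ≤ θ.2 ∧ θ.1.natAbs ≤ θ.2 ^ B}
    (fun θ => (Icc 1 θ.1.2).filter (fun t : ℕ => ∀ j, (P j).eval (θ.1.1 + (t : ℤ)) ≠ 0))
    (fun θ => θ.1.2) (fun θ t j => (P j).eval (θ.1.1 + (t : ℤ))) (fun θ => (θ.1.2 : ℝ)) a e c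
    ((B + 2) * d + 1) k0 ha ha2 hD.sq hk0 (by omega) (fun θ => θ.2.1)
    (fun θ => Nat.cast_nonneg _) (fun X0 => ?_) ⟨A0 + 2, ?_⟩ ⟨z1, fun z hz => ⟨?_, ?_⟩⟩
  · -- small scales
    refine ⟨∑ N ∈ Icc (-((X0 : ℤ) ^ B)) ((X0 : ℤ) ^ B), ∑ t ∈ Icc 1 X0, r (N + (t : ℤ)), ?_⟩
    rintro ⟨⟨N, X⟩, hX, hN⟩ hle
    simp only at hX hN hle ⊢
    have hX0 : X ^ B ≤ X0 ^ B := Nat.pow_le_pow_left hle B
    have hmem : N ∈ Icc (-((X0 : ℤ) ^ B)) ((X0 : ℤ) ^ B) := by
      rw [mem_Icc]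
      have h1 : (N.natAbs : ℤ) ≤ (X0 : ℤ) ^ B := by exact_mod_cast hN.trans hX0
      omega
    have e1 : ∑ t ∈ (Icc 1 X).filter (fun t : ℕ => ∀ j, (P j).eval (N + (t : ℤ)) ≠ 0),
        r (N + (t : ℤ)) ≤ ∑ t ∈ Icc 1 X0, r (N + (t : ℤ)) := by
      refine sum_le_sum_of_subset_of_nonneg ?_ fun t _ _ => hr0 _
      exact (filter_subset _ _).trans (Icc_subset_Icc_right hle)
    have e2 : ∑ t ∈ Icc 1 X0, r (N + (t : ℤ)) ≤
        ∑ N ∈ Icc (-((X0 : ℤ) ^ B)) ((X0 : ℤ) ^ B), ∑ t ∈ Icc 1 X0, r (N + (t : ℤ)) :=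
      single_le_sum (f := fun N : ℤ => ∑ t ∈ Icc 1 X0, r (N + (t : ℤ)))
        (fun _ _ => sum_nonneg fun _ _ => hr0 _) hmem
    have e3 : 0 ≤ ∑ N ∈ Icc (-((X0 : ℤ) ^ B)) ((X0 : ℤ) ^ B), ∑ t ∈ Icc 1 X0, r (N + (t : ℤ)) :=
      sum_nonneg fun _ _ => sum_nonneg fun _ _ => hr0 _
    have e4 : (1 : ℝ) ≤ (X : ℝ) := by exact_mod_cast hX
    exact (e1.trans e2).trans (le_mul_of_one_le_right e3 e4)
  · -- the size of the values
    rintro ⟨⟨N, X⟩, hX, hN⟩ hXA t ht j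
    simp only at hX hN hXA ht ⊢
    rw [mem_filter, mem_Icc] at ht
    have hY1 : 1 ≤ X ^ (B + 2) := Nat.one_le_pow _ _ hX
    have hx : (N + (t : ℤ)).natAbs ≤ X ^ (B + 2) := by
      have e1 : (N + (t : ℤ)).natAbs ≤ N.natAbs + t :=
        (Int.natAbs_add_le _ _).trans (by rw [Int.natAbs_natCast])
      have e2 : X ^ B ≤ X ^ (B + 1) := Nat.pow_le_pow_right hX (by omega)
      have e3 : X ≤ X ^ (B + 1) := Nat.le_self_pow (by omega) X
      have e4 : X ^ (B + 2) = X * X ^ (B + 1) := by ring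
      have e5 : 2 * X ^ (B + 1) ≤ X * X ^ (B + 1) := Nat.mul_le_mul_right _ (by omega)
      omega
    refine (natAbs_eval_le (P j) _ (X ^ (B + 2)) d hx hY1 (hdj j)).trans ?_
    calc (∑ i ∈ range ((P j).natDegree + 1), ((P j).coeff i).natAbs) * (X ^ (B + 2)) ^ d
        ≤ X * (X ^ (B + 2)) ^ d := Nat.mul_le_mul_right _ ((hAj j).trans (by omega))
      _ = X ^ ((B + 2) * d + 1) := by rw [← pow_mul, pow_succ, mul_comm]
  · -- good values
    rintro ⟨⟨N, X⟩, hX, hN⟩ t ht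
    refine ⟨(mem_filter.1 ht).2, fun p hp hzp j l hjl h => ?_⟩
    exact hq1 j l hjl p hp (lt_of_le_of_lt ((hq1z j l).trans hz) hzp) _ h
  · -- the counting
    obtain ⟨C1, hC1⟩ := h3 J e z hD.sq
    have hcsum : ∀ p, ∑ j, re (e j) p + ∑ i : Fin 0, (fun (_ : Fin 0) (_ : ℕ) => 0) i p ≤ c := by
      intro p
      have e1 : ∑ j : J, re (e j) p ≤ ∑ _j : J, 2 := sum_le_sum fun j _ => re_le _ _
      have e2 : ∑ _j : J, 2 = 2 * n := by rw [sum_const, card_univ, smul_eq_mul, mul_comm]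
      simp only [Finset.univ_eq_empty, Finset.sum_empty, add_zero]
      omega
    obtain ⟨Cc, K, y0, hC0, hK1, hcn⟩ := h2 J (Fin 0) (fun j p => re (e j) p) (fun _ _ => 0) c z C1
      hcsum (by omega) (by
        intro y hy
        have := hC1 y hy
        simpa using this)
    refine ⟨Cc, (c : ℝ) + 1, 2 * c + 1, K, y0, hC0, ?_, ?_, hK1, ?_⟩
    · have : (0 : ℝ) ≤ c := Nat.cast_nonneg _
      linarith
    · have : (0 : ℝ) ≤ c := Nat.cast_nonneg _
      linarith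
    rintro ⟨⟨N, X⟩, hX1, hN⟩ y Y k hy0 hzy hyK hk s hs v hv u hu h8 E T' hT' hval
    simp only at hX1 hN hyK hk h8 hT' hval ⊢
    have hmain := hcn (fun j => (P j).comp (Polynomial.X + C N)) (fun _ => 1) 1 X y Y one_ne_zero
      hy0 hzy hyK ?_ s hs v hv u hu h8 E
    · have hsub : T' ⊆ (Icc 1 X).filter (fun t : ℕ =>
          (∀ p ∈ (1 : ℕ).primeFactors, z < p → ∀ j,
            ¬ (p : ℤ) ∣ ((P j).comp (Polynomial.X + C N)).eval (t : ℤ)) ∧
          S1 z y (fun j => ((P j).comp (Polynomial.X + C N)).eval (t : ℤ)) = s ∧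
          S2 z y (fun j => ((P j).comp (Polynomial.X + C N)).eval (t : ℤ)) = v ∧
          (∀ j, (u j : ℤ) ∣ ((P j).comp (Polynomial.X + C N)).eval (t : ℤ)) ∧
          (∀ p ∈ PS z y, ¬ p ∣ 1 → ∀ i : Fin 0, ¬ (p : ℤ) ∣ ((fun _ => 1 : Fin 0 → ℤ[X]) i).eval (t : ℤ)) ∧
          ng (∏ j, s j) (∏ j, ((P j).comp (Polynomial.X + C N)).eval (t : ℤ)) = E) := by
        intro t ht
        rw [mem_filter]
        obtain ⟨e1, e2, e3, e4⟩ := hval t ht
        have hev : ∀ j, ((P j).comp (Polynomial.X + C N)).eval (t : ℤ) = (P j).eval (N + (t : ℤ)) := by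
          intro j
          rw [eval_shift, add_comm]
        simp only [hev]
        refine ⟨(mem_filter.1 (hT' ht)).1, ?_, e1, e2, e3, ?_, e4⟩
        · intro p hp
          simp at hp
        · intro p _ _ i
          exact i.elim0
      have hcard := (Nat.cast_le (α := ℝ)).2 (card_le_card hsub)
      refine (hcard.trans hmain).trans ?_
      have hM : (∏ p ∈ (1 : ℕ).primeFactors.filter (fun p => z < p), (p : ℝ) / ((p : ℝ) - c)) = 1 := by
        simp
      rw [hM, mul_one, Fintype.card_fin, add_zero]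
      have hzc : 2 * c + 2 ≤ z := by omega
      have f1 := v_factor c n z y (by omega) hzc v hv
      have f2 := u_factor c y Y X k u v s hu z y hs hv h8 hk
      have f3 : 0 ≤ ∏ j, (gw 1 c (s j) * rr (re (e j)) (s j)) :=
        prod_nonneg fun j _ => mul_nonneg (gw_nonneg' c z (s j) hzc (tup_prime hs j)) (rr_nonneg _ _)
      have f4 : 0 ≤ ∏ j, (c : ℝ) ^ (v j).primeFactors.card * (gw 1 c (v j) / v j) := by
        refine prod_nonneg fun j _ => ?_
        have := gw_nonneg' c z (v j) hzc (tup_prime hv j)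
        positivity
      have f5 : 0 ≤ ∏ j, (c : ℝ) ^ (u j).primeFactors.card * (1 / (u j : ℝ)) :=
        prod_nonneg fun j _ => by positivity
      have hlog : 0 ≤ (Real.log y) ^ n := by
        apply pow_nonneg
        exact Real.log_natCast_nonneg y
      apply div_le_div_of_nonneg_right _ hlog
      have g1 : (∏ j, (c : ℝ) ^ (v j).primeFactors.card * (gw 1 c (v j) / v j)) *
          (∏ j, (c : ℝ) ^ (u j).primeFactors.card * (1 / (u j : ℝ))) ≤
          (∏ j, (2 * c + 1 : ℝ) ^ (v j).primeFactors.card * (gw 1 n (v j) / v j)) *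
          (((c : ℝ) + 1) ^ k * ∏ j, 1 / (u j : ℝ)) :=
        mul_le_mul f1 f2 f5 (f4.trans f1)
      have g2 : 0 ≤ Cc * X * (1 / 2) ^ (∏ j, s j).primeFactors.card *
          (∏ j, (gw 1 c (s j) * rr (re (e j)) (s j))) := by positivity
      calc Cc * X * (1 / 2) ^ (∏ j, s j).primeFactors.card *
          (∏ j, (gw 1 c (s j) * rr (re (e j)) (s j))) *
          (∏ j, (c : ℝ) ^ (v j).primeFactors.card * (gw 1 c (v j) / v j)) *
          (∏ j, (c : ℝ) ^ (u j).primeFactors.card * (1 / (u j : ℝ)))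
          = (Cc * X * (1 / 2) ^ (∏ j, s j).primeFactors.card *
          (∏ j, (gw 1 c (s j) * rr (re (e j)) (s j)))) *
          ((∏ j, (c : ℝ) ^ (v j).primeFactors.card * (gw 1 c (v j) / v j)) *
          (∏ j, (c : ℝ) ^ (u j).primeFactors.card * (1 / (u j : ℝ)))) := by ring
        _ ≤ (Cc * X * (1 / 2) ^ (∏ j, s j).primeFactors.card *
          (∏ j, (gw 1 c (s j) * rr (re (e j)) (s j)))) *
          ((∏ j, (2 * c + 1 : ℝ) ^ (v j).primeFactors.card * (gw 1 n (v j) / v j)) *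
          (((c : ℝ) + 1) ^ k * ∏ j, 1 / (u j : ℝ))) := mul_le_mul_of_nonneg_left g1 g2
        _ = _ := by ring
    · -- the hypotheses on the primes
      intro p hp hzp _
      refine ⟨fun j => ?_, fun i => i.elim0, fun x => ⟨fun j l hjl h => ?_, fun i => i.elim0,
        fun j i => i.elim0, fun j h => ?_⟩⟩
      · rw [nz_shift _ _ _ hp.pos]
        exact hp0 p hp (by omega) j
      · rw [eval_shift, eval_shift] at h
        exact hq1 j l hjl p hp (lt_of_le_of_lt ((hq1z j l).trans hz) hzp) _ h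
      · have hder : (derivative ((P j).comp (Polynomial.X + C N))).eval x =
            (derivative (P j)).eval (x + N) := by
          rw [derivative_comp, derivative_add, derivative_X, derivative_C, add_zero, one_mul,
            eval_shift]
        rw [eval_shift, hder] at h
        exact hq2 j p hp (lt_of_le_of_lt ((hq2z j).trans hz) hzp) _ h

end Pool.Agent.W409.QF
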